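import Pool.Agent.Run7.h242.SC.Iface

/-!
# Piece CONE of the project SC of helper242 (MP_a6162f_an)
-/

set_option autoImplicit false

namespace Run7.h13.SC

open Run7.h242.SC
open MeasureTheory Set Filter Topology Metric
open scoped NNReal

theorem norm_lt_two {ψ : ℂ → ℂ} (hi : Function.Injective ψ) (h2 : ∀ z, 2 ≤ ‖z‖ → ψ z = z)
    {w : ℂ} (hw : ‖w‖ < 2) : ‖ψ w‖ < 2 := by
  by_contra h
  push Not at h
  have h1 := hi (h2 _ h)
  rw [h1] at h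
  linarith

theorem g_bound {C : ℝ} (hC : 0 ≤ C) {g : ℂ → ℂ} (hg : ∀ a b, ‖g a - g b‖ ≤ (C + 1) * ‖a - b‖)
    (h2 : ∀ z, 2 ≤ ‖z‖ → g z = 0) (w : ℂ) : ‖g w‖ ≤ 4 * (C + 1) := by
  by_cases hw : 2 ≤ ‖w‖
  · rw [h2 w hw, norm_zero]; positivity
  · push Not at hw
    have h3 : g 2 = 0 := h2 2 (by simp)
    have h4 := hg w 2
    rw [h3, sub_zero] at h4
    have h5 : ‖w - 2‖ ≤ 4 := by
      refine (norm_sub_le _ _).trans ?_
      have : ‖(2 : ℂ)‖ = 2 := by simp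
      rw [this]; linarith
    nlinarith

theorem s_bound {C : ℝ} (hC : 0 ≤ C) {g : ℂ → ℂ} (hg : ∀ a b, ‖g a - g b‖ ≤ (C + 1) * ‖a - b‖)
    (h2 : ∀ z, 2 ≤ ‖z‖ → g z = 0) (z : ℂ) {s s' : ℝ} (hs : 0 < s) (hss : s ≤ s') :
    ‖(s : ℂ) * g (z / s) - (s' : ℂ) * g (z / s')‖ ≤ 6 * (C + 1) * (s' - s) := by
  have hs' : 0 < s' := lt_of_lt_of_le hs hss
  have hn : ∀ r : ℝ, 0 < r → ‖z / (r : ℂ)‖ = ‖z‖ / r := by
    intro r hr
    rw [norm_div, Complex.norm_real, Real.norm_eq_abs, abs_of_pos hr]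
  by_cases hz : 2 * s' ≤ ‖z‖
  · rw [h2 (z / s) (by rw [hn s hs, le_div_iff₀ hs]; linarith),
      h2 (z / s') (by rw [hn s' hs', le_div_iff₀ hs']; linarith)]
    simp only [mul_zero, sub_self, norm_zero]
    have : 0 ≤ s' - s := by linarith
    positivity
  · push Not at hz
    have h3 : (s : ℂ) * g (z / s) - (s' : ℂ) * g (z / s') =
        (s : ℂ) * (g (z / s) - g (z / s')) - ((s' - s : ℝ) : ℂ) * g (z / s') := by
      push_cast; ring
    rw [h3]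
    refine (norm_sub_le _ _).trans ?_
    rw [norm_mul, norm_mul, Complex.norm_real, Complex.norm_real, Real.norm_eq_abs,
      Real.norm_eq_abs, abs_of_pos hs, abs_of_nonneg (by linarith : 0 ≤ s' - s)]
    have h4 := hg (z / s) (z / s')
    have h5 : ‖z / (s : ℂ) - z / (s' : ℂ)‖ = ‖z‖ * ((s' - s) / (s * s')) := by
      have hsc : (s : ℂ) ≠ 0 := by exact_mod_cast hs.ne'
      have hsc' : (s' : ℂ) ≠ 0 := by exact_mod_cast hs'.ne'
      have h6 : z / (s : ℂ) - z / (s' : ℂ) = z * (((s' - s) / (s * s') : ℝ) : ℂ) := by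
        push_cast
        field_simp
      rw [h6, norm_mul, Complex.norm_real, Real.norm_eq_abs, abs_of_nonneg]
      have : 0 ≤ s' - s := by linarith
      positivity
    rw [h5] at h4
    have h7 : s * ‖g (z / s) - g (z / s')‖ ≤ (C + 1) * (‖z‖ / s') * (s' - s) := by
      calc s * ‖g (z / s) - g (z / s')‖ ≤ s * ((C + 1) * (‖z‖ * ((s' - s) / (s * s')))) :=
            mul_le_mul_of_nonneg_left h4 hs.le
        _ = (C + 1) * (‖z‖ / s') * (s' - s) := by field_simp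
    have h8 : ‖z‖ / s' ≤ 2 := by rw [div_le_iff₀ hs']; linarith
    have h9 := g_bound hC hg h2 (z / s')
    have h10 : 0 ≤ s' - s := by linarith
    have h11 : (C + 1) * (‖z‖ / s') * (s' - s) ≤ (C + 1) * 2 * (s' - s) := by
      refine mul_le_mul_of_nonneg_right (mul_le_mul_of_nonneg_left h8 (by linarith)) h10
    have h12 : (s' - s) * ‖g (z / s')‖ ≤ (s' - s) * (4 * (C + 1)) :=
      mul_le_mul_of_nonneg_left h9 h10
    linarith

theorem t_CONE : S_CONE := by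
  intro C
  refine ⟨7 * C + 7, fun ψ hb hL h2 => ⟨?_, ?_, ?_, ?_⟩⟩
  · have hC : (0 : ℝ) ≤ C := C.coe_nonneg
    set g : ℂ → ℂ := fun w => ψ w - w with hgdef
    have hg : ∀ a b, ‖g a - g b‖ ≤ ((C : ℝ) + 1) * ‖a - b‖ := by
      intro a b
      have h3 : g a - g b = (ψ a - ψ b) - (a - b) := by rw [hgdef]; ring
      rw [h3]
      have h4 := hL.dist_le_mul a b
      rw [dist_eq_norm, dist_eq_norm] at h4
      refine (norm_sub_le _ _).trans ?_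
      linarith
    have hg2 : ∀ z, 2 ≤ ‖z‖ → g z = 0 := fun z hz => by rw [hgdef]; simp only; rw [h2 z hz, sub_self]
    apply LipschitzOnWith.of_dist_le_mul
    intro p hp p' hp'
    have hs : 0 < 1 + p.2 := by linarith [hp.1]
    have hs' : 0 < 1 + p'.2 := by linarith [hp'.1]
    rw [dist_eq_norm, dist_eq_norm, Prod.norm_def]
    have e1 : ‖p.1 - p'.1‖ ≤ ‖p - p'‖ := norm_fst_le (p - p')
    have e2 : |p.2 - p'.2| ≤ ‖p - p'‖ := norm_snd_le (p - p')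
    have e0 : 0 ≤ ‖p - p'‖ := norm_nonneg _
    have hCC : ((7 * C + 7 : ℝ≥0) : ℝ) = 7 * (C : ℝ) + 7 := by push_cast; ring
    rw [hCC]
    refine max_le ?_ ?_
    · have e3 : (cone ψ p - cone ψ p').1 =
          ((1 + p.2 : ℝ) : ℂ) * (ψ (p.1 / ((1 + p.2 : ℝ) : ℂ)) - ψ (p'.1 / ((1 + p.2 : ℝ) : ℂ))) +
          (((1 + p.2 : ℝ) : ℂ) * g (p'.1 / ((1 + p.2 : ℝ) : ℂ)) -
            ((1 + p'.2 : ℝ) : ℂ) * g (p'.1 / ((1 + p'.2 : ℝ) : ℂ))) := by
        have hsc : ((1 + p.2 : ℝ) : ℂ) ≠ 0 := by exact_mod_cast hs.ne'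
        have hsc' : ((1 + p'.2 : ℝ) : ℂ) ≠ 0 := by exact_mod_cast hs'.ne'
        change ((1 + p.2 : ℝ) : ℂ) * ψ (p.1 / ((1 + p.2 : ℝ) : ℂ)) -
          ((1 + p'.2 : ℝ) : ℂ) * ψ (p'.1 / ((1 + p'.2 : ℝ) : ℂ)) = _
        rw [hgdef]
        simp only
        have h5 : ((1 + p.2 : ℝ) : ℂ) * (p'.1 / ((1 + p.2 : ℝ) : ℂ)) = p'.1 := by
          field_simp
        have h6 : ((1 + p'.2 : ℝ) : ℂ) * (p'.1 / ((1 + p'.2 : ℝ) : ℂ)) = p'.1 := by
          field_simp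
        rw [mul_sub, mul_sub, mul_sub, h5, h6]
        ring
      rw [e3]
      refine (norm_add_le _ _).trans ?_
      have e4 : ‖((1 + p.2 : ℝ) : ℂ) *
          (ψ (p.1 / ((1 + p.2 : ℝ) : ℂ)) - ψ (p'.1 / ((1 + p.2 : ℝ) : ℂ)))‖ ≤
          C * ‖p.1 - p'.1‖ := by
        rw [norm_mul, Complex.norm_real, Real.norm_eq_abs, abs_of_pos hs]
        have h4 := hL.dist_le_mul (p.1 / ((1 + p.2 : ℝ) : ℂ)) (p'.1 / ((1 + p.2 : ℝ) : ℂ))
        rw [dist_eq_norm, dist_eq_norm, ← sub_div, norm_div, Complex.norm_real,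
          Real.norm_eq_abs, abs_of_pos hs] at h4
        calc (1 + p.2) * ‖ψ (p.1 / ((1 + p.2 : ℝ) : ℂ)) - ψ (p'.1 / ((1 + p.2 : ℝ) : ℂ))‖
            ≤ (1 + p.2) * (C * (‖p.1 - p'.1‖ / (1 + p.2))) := mul_le_mul_of_nonneg_left h4 hs.le
          _ = C * ‖p.1 - p'.1‖ := by field_simp
      have e5 : ‖((1 + p.2 : ℝ) : ℂ) * g (p'.1 / ((1 + p.2 : ℝ) : ℂ)) -
            ((1 + p'.2 : ℝ) : ℂ) * g (p'.1 / ((1 + p'.2 : ℝ) : ℂ))‖ ≤
          6 * (C + 1) * |p.2 - p'.2| := by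
        rcases le_total p.2 p'.2 with h | h
        · have := s_bound hC hg hg2 p'.1 hs (by linarith : 1 + p.2 ≤ 1 + p'.2)
          rw [abs_of_nonpos (by linarith)]
          linarith
        · have := s_bound hC hg hg2 p'.1 hs' (by linarith : 1 + p'.2 ≤ 1 + p.2)
          rw [norm_sub_rev, abs_of_nonneg (by linarith)]
          linarith
      have e6 : (C : ℝ) * ‖p.1 - p'.1‖ ≤ C * ‖p - p'‖ := mul_le_mul_of_nonneg_left e1 hC
      have e7 : 6 * ((C : ℝ) + 1) * |p.2 - p'.2| ≤ 6 * (C + 1) * ‖p - p'‖ :=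
        mul_le_mul_of_nonneg_left e2 (by positivity)
      nlinarith
    · change |p.2 - p'.2| ≤ _
      nlinarith
  · intro p hp
    have hs : 0 < 1 + p.2 := by linarith [hp.2.1]
    refine ⟨?_, hp.2⟩
    change ‖((1 + p.2 : ℝ) : ℂ) * ψ (p.1 / ((1 + p.2 : ℝ) : ℂ))‖ < 3
    by_cases hz : 2 ≤ ‖p.1 / ((1 + p.2 : ℝ) : ℂ)‖
    · rw [h2 _ hz]
      have hsc : ((1 + p.2 : ℝ) : ℂ) ≠ 0 := by exact_mod_cast hs.ne'
      rw [mul_div_cancel₀ _ hsc]
      exact hp.1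
    · push Not at hz
      have h3 := norm_lt_two hb.injective h2 hz
      rw [norm_mul, Complex.norm_real, Real.norm_eq_abs, abs_of_pos hs]
      nlinarith [hp.2.2, norm_nonneg (ψ (p.1 / ((1 + p.2 : ℝ) : ℂ)))]
  · intro p hp p' hp' h
    have h1 : (cone ψ p).2 = (cone ψ p').2 := by rw [h]
    have h3 : (cone ψ p).1 = (cone ψ p').1 := by rw [h]
    change p.2 = p'.2 at h1
    change ((1 + p.2 : ℝ) : ℂ) * ψ (p.1 / ((1 + p.2 : ℝ) : ℂ)) =
      ((1 + p'.2 : ℝ) : ℂ) * ψ (p'.1 / ((1 + p'.2 : ℝ) : ℂ)) at h3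
    have hs : 0 < 1 + p.2 := by linarith [hp.2.1]
    have hsc : ((1 + p.2 : ℝ) : ℂ) ≠ 0 := by exact_mod_cast hs.ne'
    rw [← h1] at h3
    have h4 := hb.injective (mul_left_cancel₀ hsc h3)
    have h5 : p.1 = p'.1 := by
      rw [div_left_inj' hsc] at h4
      exact h4
    exact Prod.ext h5 h1
  · intro p hp
    have hs : 0 < 1 + p.2 := by linarith [hp.2.1]
    have hsc : ((1 + p.2 : ℝ) : ℂ) ≠ 0 := by exact_mod_cast hs.ne'
    obtain ⟨w, hw⟩ := hb.surjective (p.1 / ((1 + p.2 : ℝ) : ℂ))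
    refine ⟨(((1 + p.2 : ℝ) : ℂ) * w, p.2), ⟨?_, hp.2⟩, ?_⟩
    · change ‖((1 + p.2 : ℝ) : ℂ) * w‖ < 3
      by_cases hz : 2 ≤ ‖w‖
      · rw [h2 w hz] at hw
        rw [hw, mul_div_cancel₀ _ hsc]
        exact hp.1
      · push Not at hz
        rw [norm_mul, Complex.norm_real, Real.norm_eq_abs, abs_of_pos hs]
        nlinarith [hp.2.2, norm_nonneg w]
    · refine Prod.ext ?_ rfl
      change ((1 + p.2 : ℝ) : ℂ) * ψ ((((1 + p.2 : ℝ) : ℂ) * w) / ((1 + p.2 : ℝ) : ℂ)) = p.1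
      rw [mul_div_cancel_left₀ _ hsc, hw, mul_div_cancel₀ _ hsc]

end Run7.h13.SC
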