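import Pool.Agent.Run7.h242.SC.Iface
import Pool.Agent.Helper514.IoD

/-!
# Piece IOD of the project SC of helper242 (MP_a6162f_an)
-/

set_option autoImplicit false

namespace Run7.h13.SC

open Run7.h242.SC
open MeasureTheory Set Filter Topology Metric

theorem t_IOD : S_IOD := by
  intro n Ω f hΩ hc hi
  have key : ∀ U, U ⊆ Ω → IsOpen U → IsOpen (f '' U) := by
    intro U hU hUo
    rw [isOpen_iff_mem_nhds]
    rintro _ ⟨x, hx, rfl⟩
    obtain ⟨r, hr, hrU⟩ := Metric.isOpen_iff.mp hUo x hx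
    have h1 : closedBall x (r / 2) ⊆ U := (closedBall_subset_ball (by linarith)).trans hrU
    have h2 := Pool.Agent.Helper514.IoD.image_mem_nhds f x (r / 2) (by linarith)
      (hc.mono (h1.trans hU)) (hi.mono (h1.trans hU))
    exact Filter.mem_of_superset h2 (image_mono h1)
  refine ⟨key Ω subset_rfl hΩ, ?_, key⟩
  let e : Ω ≃ (f '' Ω) := Equiv.Set.imageOfInjOn f Ω hi
  have he : ∀ x : Ω, ((e x : f '' Ω) : E n) = f x := fun x => rfl
  refine ⟨e.toHomeomorphOfContinuousOpen ?_ ?_, fun x => rfl⟩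
  · rw [continuousOn_iff_continuous_domRestrict] at hc
    exact Continuous.subtype_mk hc _
  · intro W hW
    obtain ⟨U, hU, rfl⟩ := isOpen_induced_iff.mp hW
    have h1 : e '' (Subtype.val ⁻¹' U) = Subtype.val ⁻¹' (f '' (U ∩ Ω)) := by
      ext y
      constructor
      · rintro ⟨x, hx, rfl⟩
        exact ⟨x, ⟨hx, x.2⟩, rfl⟩
      · rintro ⟨x, ⟨hxU, hxΩ⟩, hxy⟩
        exact ⟨⟨x, hxΩ⟩, hxU, Subtype.ext hxy⟩
    rw [h1]
    exact (key _ inter_subset_right (hU.inter hΩ)).preimage continuous_subtype_val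

end Run7.h13.SC
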