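import Pool.Agent.Run7.h242.SC.Iface

/-!
# Piece NRG of the project SC of helper242 (MP_a6162f_an)
-/

set_option autoImplicit false

namespace Run7.h13.SC

open Run7.h242.SC
open MeasureTheory Set Filter Topology Metric

theorem cont_loopPt {m : ℕ} (t : ℝ) : Continuous (fun τ : E (m + 3) => loopPt τ t) := by
  unfold loopPt
  refine (PiLp.continuous_toLp 2 _).comp (continuous_pi fun i => ?_)
  by_cases h0 : i = 0
  · simp only [h0, if_true]
    fun_prop
  · by_cases h2 : i = 2
    · simp only [h2, if_true, ne20, if_false]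
      fun_prop
    · by_cases h1 : i = 1
      · simp only [h1, if_true, ne10, Ne.symm ne21, if_false]
        fun_prop
      · simp only [h0, h1, h2, if_false]
        fun_prop

/-- the box of the translations -/
def Bx (m : ℕ) : Set (E (m + 3)) := {τ : E (m + 3) | ∀ i, |τ i| ≤ 1 / 512}

theorem Bx_closed (m : ℕ) : IsClosed (Bx m) := by
  have h : Bx m = ⋂ i, {τ : E (m + 3) | |τ i| ≤ 1 / 512} := by
    ext τ; simp [Bx]
  rw [h]
  refine isClosed_iInter fun i => isClosed_le ?_ continuous_const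
  fun_prop

theorem Bx_compact (m : ℕ) : IsCompact (Bx m) := by
  refine Metric.isCompact_of_isClosed_isBounded (Bx_closed m) ?_
  rw [isBounded_iff_forall_norm_le]
  refine ⟨√(∑ _i : Fin (m + 3), (1 / 512 : ℝ) ^ 2), fun τ hτ => ?_⟩
  rw [EuclideanSpace.norm_eq]
  apply Real.sqrt_le_sqrt
  refine Finset.sum_le_sum fun i _ => ?_
  rw [Real.norm_eq_abs]
  exact pow_le_pow_left₀ (abs_nonneg _) (hτ i) 2

theorem Bx_pos (m : ℕ) : 0 < (volume (Bx m)).toReal := by
  rw [ENNReal.toReal_pos_iff]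
  refine ⟨?_, (Bx_compact m).measure_lt_top⟩
  refine lt_of_lt_of_le (measure_ball_pos volume (0 : E (m + 3)) (r := 1 / 512) (by norm_num))
    (measure_mono fun τ hτ i => ?_)
  rw [mem_ball, dist_zero_right] at hτ
  exact (abs_coord_le τ i).trans hτ.le

theorem t_NRG (hLOOP : S_LOOP) (hNRA : S_NRA) (hNRB : S_NRB) : S_NRG := by
  intro m
  refine ⟨(volume (Bx m)).toReal / 64, by have := Bx_pos m; positivity, ?_⟩
  intro F G W hF hW hloc hG hGi hosc
  obtain ⟨N, hN, hlow⟩ := hNRA m F W hF hW hloc hosc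
  have hup := hNRB m N F G hN hF hG hGi
  have hN' : (0 : ℝ) < N := by exact_mod_cast hN
  have hmem : ∀ τ ∈ Bx m, ∀ t ∈ Icc (0 : ℝ) 1, loopPt τ t ∈ Om m := fun τ hτ t ht =>
    (((hLOOP m).2 τ hτ).1 t ht).1
  have hcont : ∀ t ∈ Icc (0 : ℝ) 1, ContinuousOn (fun τ : E (m + 3) => F (loopPt τ t)) (Bx m) :=
    fun t ht => hF.comp (cont_loopPt t).continuousOn (fun τ hτ => hmem τ hτ t ht)
  have hco : ContinuousOn (fun τ : E (m + 3) => ∑ l ∈ Finset.range (4 * N), ∑ i : Fin (m + 3),
      |F (loopPt τ (((l : ℝ) + 1) / (4 * N))) i - F (loopPt τ ((l : ℝ) / (4 * N))) i|) (Bx m) := by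
    refine continuousOn_finsetSum _ fun l hl => continuousOn_finsetSum _ fun i _ => ?_
    have hl' : (l : ℝ) + 1 ≤ 4 * N := by
      have := Finset.mem_range.mp hl
      exact_mod_cast this
    have h0 : (0 : ℝ) ≤ l := Nat.cast_nonneg l
    have ht1 : ((l : ℝ) + 1) / (4 * N) ∈ Icc (0 : ℝ) 1 :=
      ⟨by positivity, by rw [div_le_one (by positivity)]; exact hl'⟩
    have ht2 : (l : ℝ) / (4 * N) ∈ Icc (0 : ℝ) 1 :=
      ⟨by positivity, by rw [div_le_one (by positivity)]; linarith⟩
    have hpr : Continuous (fun x : E (m + 3) => x i) := by fun_prop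
    exact ((hpr.comp_continuousOn (hcont _ ht1)).sub (hpr.comp_continuousOn (hcont _ ht2))).abs
  have hint := hco.integrableOn_compact (μ := volume) (Bx_compact m)
  have hle : (1 / 32 : ℝ) * (volume (Bx m)).toReal ≤
      ∫ τ in Bx m, ∑ l ∈ Finset.range (4 * N), ∑ i : Fin (m + 3),
      |F (loopPt τ (((l : ℝ) + 1) / (4 * N))) i - F (loopPt τ ((l : ℝ) / (4 * N))) i| := by
    have h1 : (1 / 32 : ℝ) * (volume (Bx m)).toReal = ∫ _τ in Bx m, (1 / 32 : ℝ) := by
      rw [setIntegral_const, smul_eq_mul, mul_comm]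
      rfl
    rw [h1]
    refine setIntegral_mono_on ?_ hint (Bx_closed m).measurableSet fun τ hτ => ?_
    · exact integrableOn_const (Bx_compact m).measure_lt_top.ne
    · have h2 := hlow τ hτ
      rw [← Finset.mul_sum] at h2
      linarith
  have h3 := hle.trans hup
  linarith

end Run7.h13.SC
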