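import Pool.Agent.Run7.h242.SC.Iface

/-!
# Piece TOP of the project SC of helper242 (MP_a6162f_an)
-/

set_option autoImplicit false

namespace Run7.h13.SC

open Run7.h242.SC
open MeasureTheory Set Filter Topology Metric

theorem V_pos (j : ℕ) : 0 < V j := by unfold V; positivity

theorem V_le (j : ℕ) : V j ≤ 1 / 32 := by
  unfold V
  have : ((1 / 2 : ℝ)) ^ j ≤ 1 := pow_le_one₀ (by norm_num) (by norm_num)
  linarith

theorem norm_q_le (j : ℕ) : ‖q j‖ ≤ 1 := by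
  unfold q
  rw [Complex.norm_real, Real.norm_eq_abs, abs_of_nonneg (by positivity)]
  exact pow_le_one₀ (by norm_num) (by norm_num)

theorem norm_Q_le (j : ℕ) : ‖Q j‖ ≤ 1 := by
  unfold Q
  split_ifs
  · simp
  · exact norm_q_le j

/-- the inverse of the affine map of the tube -/
noncomputable def iSig (j : ℕ) (p : ℂ × ℝ) : ℂ × ℝ := ((p.1 - Q j) / (V j : ℂ), p.2)

theorem Vc_ne (j : ℕ) : (V j : ℂ) ≠ 0 := by exact_mod_cast (V_pos j).ne'

theorem image_Sig (j : ℕ) (s : Set (ℂ × ℝ)) : Sig j '' s = iSig j ⁻¹' s := by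
  ext p
  constructor
  · rintro ⟨x, hx, rfl⟩
    have : iSig j (Sig j x) = x := by
      refine Prod.ext ?_ rfl
      change (Q j + (V j : ℂ) * x.1 - Q j) / (V j : ℂ) = x.1
      rw [add_sub_cancel_left, mul_div_cancel_left₀ _ (Vc_ne j)]
    rw [mem_preimage, this]
    exact hx
  · intro hp
    refine ⟨iSig j p, hp, ?_⟩
    refine Prod.ext ?_ rfl
    change Q j + (V j : ℂ) * ((p.1 - Q j) / (V j : ℂ)) = p.1
    rw [mul_div_cancel₀ _ (Vc_ne j)]
    ring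

theorem cont_iSig (j : ℕ) : Continuous (iSig j) := by
  unfold iSig
  exact ((continuous_fst.sub continuous_const).div_const _).prodMk continuous_snd

theorem cont_Sig (j : ℕ) : Continuous (Sig j) := by
  unfold Sig
  exact (continuous_const.add (continuous_const.mul continuous_fst)).prodMk continuous_snd

theorem open_M3 : IsOpen M3 := by
  unfold M3
  exact (isOpen_lt (continuous_norm.comp continuous_fst) continuous_const).inter
    ((isOpen_lt continuous_const continuous_snd).inter (isOpen_lt continuous_snd continuous_const))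

theorem cont_re : Continuous (fun p : ℂ × ℝ => |p.1.re|) :=
  (Complex.continuous_re.comp continuous_fst).abs

theorem cont_im : Continuous (fun p : ℂ × ℝ => |p.1.im|) :=
  (Complex.continuous_im.comp continuous_fst).abs

theorem open_T3 : IsOpen T3 := by
  unfold T3
  refine (isOpen_lt cont_re continuous_const).inter ((isOpen_lt cont_im continuous_const).inter
    ((isOpen_lt continuous_const continuous_snd).inter
      ((isOpen_lt continuous_snd continuous_const).inter ?_)))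
  change IsOpen ({p : ℂ × ℝ | |p.1.re| ≤ 1 / 2 ∧ 1 / 2 ≤ p.2 ∧ p.2 ≤ 3 / 4}ᶜ)
  rw [isOpen_compl_iff]
  exact (isClosed_le cont_re continuous_const).inter
    ((isClosed_le continuous_const continuous_snd).inter
      (isClosed_le continuous_snd continuous_const))

theorem open_Om3 : IsOpen Om3 := by
  unfold Om3
  refine open_M3.union (isOpen_iUnion fun j => ?_)
  rw [image_Sig]
  exact open_T3.preimage (cont_iSig j)

theorem open_Pas (m : ℕ) : IsOpen {x : E (m + 3) | Pas x} := by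
  have h : {x : E (m + 3) | Pas x} =
      ⋂ i : Fin (m + 3), {x : E (m + 3) | 3 ≤ (i : ℕ) → 0 < x i ∧ x i < 1} := by
    ext x; simp [Pas]
  rw [h]
  refine isOpen_iInter_of_finite fun i => ?_
  by_cases hi : 3 ≤ (i : ℕ)
  · simp only [hi, forall_true_left]
    have hc : Continuous (fun x : E (m + 3) => x i) := by fun_prop
    exact (isOpen_lt continuous_const hc).inter (isOpen_lt hc continuous_const)
  · simp [hi]

/-- boxes in `ℂ × ℝ` are convex -/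
theorem box_convex (a b c d e f : ℝ) :
    Convex ℝ {p : ℂ × ℝ | a < p.1.re ∧ p.1.re < b ∧ c < p.1.im ∧ p.1.im < d ∧ e < p.2 ∧ p.2 < f} := by
  intro p hp p' hp' s t hs ht hst
  obtain ⟨h1, h2, h3, h4, h5, h6⟩ := hp
  obtain ⟨h1', h2', h3', h4', h5', h6'⟩ := hp'
  have k1 := convex_Ioo a b ⟨h1, h2⟩ ⟨h1', h2'⟩ hs ht hst
  have k2 := convex_Ioo c d ⟨h3, h4⟩ ⟨h3', h4'⟩ hs ht hst
  have k3 := convex_Ioo e f ⟨h5, h6⟩ ⟨h5', h6'⟩ hs ht hst
  simp only [smul_eq_mul] at k1 k2 k3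
  have e1 : (s • p + t • p').1.re = s * p.1.re + t * p'.1.re := by simp
  have e2 : (s • p + t • p').1.im = s * p.1.im + t * p'.1.im := by simp
  have e3 : (s • p + t • p').2 = s * p.2 + t * p'.2 := by simp
  rw [mem_ofPred_eq, e1, e2, e3]
  exact ⟨k1.1, k1.2, k2.1, k2.2, k3.1, k3.2⟩

theorem T3_eq : T3 = (({p : ℂ × ℝ | -1 < p.1.re ∧ p.1.re < 1 ∧ -1 < p.1.im ∧ p.1.im < 1 ∧
      -1 < p.2 ∧ p.2 < 1 / 2} ∪
    {p : ℂ × ℝ | 1 / 2 < p.1.re ∧ p.1.re < 1 ∧ -1 < p.1.im ∧ p.1.im < 1 ∧ -1 < p.2 ∧ p.2 < 1}) ∪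
    {p : ℂ × ℝ | -1 < p.1.re ∧ p.1.re < 1 ∧ -1 < p.1.im ∧ p.1.im < 1 ∧ 3 / 4 < p.2 ∧ p.2 < 1}) ∪
    {p : ℂ × ℝ | -1 < p.1.re ∧ p.1.re < -(1 / 2) ∧ -1 < p.1.im ∧ p.1.im < 1 ∧ -1 < p.2 ∧
      p.2 < 1} := by
  ext p
  simp only [T3, mem_union, mem_ofPred_eq, abs_lt, abs_le]
  constructor
  · rintro ⟨⟨h1, h2⟩, ⟨h3, h4⟩, h5, h6, h7⟩
    by_cases a1 : p.2 < 1 / 2
    · exact Or.inl (Or.inl (Or.inl ⟨h1, h2, h3, h4, h5, a1⟩))
    · by_cases a2 : 3 / 4 < p.2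
      · exact Or.inl (Or.inr ⟨h1, h2, h3, h4, a2, h6⟩)
      · by_cases a3 : 1 / 2 < p.1.re
        · exact Or.inl (Or.inl (Or.inr ⟨a3, h2, h3, h4, h5, h6⟩))
        · by_cases a4 : p.1.re < -(1 / 2)
          · exact Or.inr ⟨h1, a4, h3, h4, h5, h6⟩
          · push Not at a1 a2 a3 a4
            exact absurd ⟨⟨a4, a3⟩, a1, a2⟩ h7
  · rintro (((⟨h1, h2, h3, h4, h5, h6⟩ | ⟨h1, h2, h3, h4, h5, h6⟩) | ⟨h1, h2, h3, h4, h5, h6⟩) |
      ⟨h1, h2, h3, h4, h5, h6⟩)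
    · exact ⟨⟨h1, h2⟩, ⟨h3, h4⟩, h5, by linarith, fun h => by linarith [h.2.1]⟩
    · exact ⟨⟨by linarith, h2⟩, ⟨h3, h4⟩, h5, h6, fun h => by linarith [h.1.2]⟩
    · exact ⟨⟨h1, h2⟩, ⟨h3, h4⟩, by linarith, h6, fun h => by linarith [h.2.2]⟩
    · exact ⟨⟨h1, by linarith⟩, ⟨h3, h4⟩, h5, h6, fun h => by linarith [h.1.1]⟩

theorem T3_preconn : IsPreconnected T3 := by
  rw [T3_eq]
  refine IsPreconnected.union ((⟨-(3 / 4), 0⟩, 0) : ℂ × ℝ) ?_ ?_
    (IsPreconnected.union ((⟨3 / 4, 0⟩, 7 / 8) : ℂ × ℝ) ?_ ?_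
      (IsPreconnected.union ((⟨3 / 4, 0⟩, 0) : ℂ × ℝ) ?_ ?_
        (box_convex _ _ _ _ _ _).isPreconnected (box_convex _ _ _ _ _ _).isPreconnected)
      (box_convex _ _ _ _ _ _).isPreconnected) (box_convex _ _ _ _ _ _).isPreconnected
  · left; left
    simp only [mem_ofPred_eq]; norm_num
  · simp only [mem_ofPred_eq]; norm_num
  · right
    simp only [mem_ofPred_eq]; norm_num
  · simp only [mem_ofPred_eq]; norm_num
  · simp only [mem_ofPred_eq]; norm_num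
  · simp only [mem_ofPred_eq]; norm_num

theorem M3_convex : Convex ℝ M3 := by
  intro p hp p' hp' s t hs ht hst
  have k3 := convex_Ioo (-1 : ℝ) 0 ⟨hp.2.1, hp.2.2⟩ ⟨hp'.2.1, hp'.2.2⟩ hs ht hst
  have k1 := convex_ball (0 : ℂ) 3 (by simpa using hp.1) (by simpa using hp'.1) hs ht hst
  rw [mem_ball, dist_zero_right] at k1
  exact ⟨k1, k3.1, k3.2⟩

theorem T3_mem : ((0, -(1 / 2)) : ℂ × ℝ) ∈ T3 := by
  unfold T3
  simp only [mem_ofPred_eq, Complex.zero_re, Complex.zero_im, abs_zero]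
  norm_num

theorem Sig_mem (j : ℕ) : Sig j (0, -(1 / 2)) ∈ M3 := by
  refine ⟨?_, ?_, ?_⟩
  · change ‖Q j + (V j : ℂ) * 0‖ < 3
    rw [mul_zero, add_zero]
    linarith [norm_Q_le j]
  · change (-1 : ℝ) < -(1 / 2); norm_num
  · change (-(1 / 2) : ℝ) < 0; norm_num

theorem Om3_conn : IsConnected Om3 := by
  have h : Om3 = ⋃ j : ℕ, (M3 ∪ Sig j '' T3) := by
    unfold Om3
    rw [← union_iUnion]
  have hM : ((0, -(1 / 2)) : ℂ × ℝ) ∈ M3 := by
    unfold M3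
    simp only [mem_ofPred_eq, norm_zero]; norm_num
  refine ⟨⟨(0, -(1 / 2)), Or.inl hM⟩, ?_⟩
  rw [h]
  refine isPreconnected_iUnion ⟨(0, -(1 / 2)), mem_iInter.mpr fun j => Or.inl hM⟩ fun j => ?_
  exact IsPreconnected.union (Sig j (0, -(1 / 2))) (Sig_mem j) ⟨_, T3_mem, rfl⟩
    M3_convex.isPreconnected (T3_preconn.image _ (cont_Sig j).continuousOn)

theorem Pas_conn (m : ℕ) : IsConnected {x : E (m + 3) | Pas x} := by
  refine ⟨⟨WithLp.toLp 2 fun _ => 1 / 2, fun i _ => by norm_num⟩, Convex.isPreconnected ?_⟩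
  intro x hx y hy s t hs ht hst i hi
  have k := convex_Ioo (0 : ℝ) 1 (hx i hi) (hy i hi) hs ht hst
  exact k

theorem Om_conn (m : ℕ) : IsConnected (Om m) := by
  have h : Om m = (fun a : E (m + 3) × (ℂ × ℝ) => wi a.1 a.2) ''
      ({x : E (m + 3) | Pas x} ×ˢ Om3) := by
    ext x
    constructor
    · rintro ⟨h1, h2⟩
      exact ⟨(x, pr x), ⟨h1, h2⟩, wi_pr x x fun _ _ => rfl⟩
    · rintro ⟨⟨y, w⟩, ⟨h1, h2⟩, rfl⟩
      refine ⟨pas_wi h1 w, ?_⟩
      change pr (wi y w) ∈ Om3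
      rw [pr_wi]
      exact h2
  rw [h]
  exact ((Pas_conn m).prod Om3_conn).image _ continuous_wi.continuousOn

theorem bdd_of (m : ℕ) (s : Set (E (m + 3))) (t : Set (ℂ × ℝ))
    (hs : ∀ x ∈ s, Pas x ∧ pr x ∈ t)
    (ht : ∀ p ∈ t, |p.1.re| ≤ 4 ∧ |p.1.im| ≤ 4 ∧ |p.2| ≤ 4) : Bornology.IsBounded s := by
  rw [isBounded_iff_forall_norm_le]
  refine ⟨√(∑ _i : Fin (m + 3), (4 : ℝ) ^ 2), fun x hx => ?_⟩
  rw [EuclideanSpace.norm_eq]
  apply Real.sqrt_le_sqrt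
  refine Finset.sum_le_sum fun i _ => ?_
  rw [Real.norm_eq_abs]
  refine pow_le_pow_left₀ (abs_nonneg _) ?_ 2
  obtain ⟨h1, h2⟩ := hs x hx
  obtain ⟨k0, k1, k2⟩ := ht _ h2
  rcases fin_cases3 i with rfl | rfl | rfl | hi
  · exact k0
  · exact k1
  · exact k2
  · have := h1 i hi
    rw [abs_of_pos this.1]
    linarith

theorem aux_bd (c : ℂ) (v : ℝ) (hc : ‖c‖ ≤ 1) (hv : 0 < v) (hv' : v ≤ 1 / 32) (ζ : ℂ)
    (h1 : |ζ.re| < 1) (h2 : |ζ.im| < 1) :
    |(c + (v : ℂ) * ζ).re| ≤ 4 ∧ |(c + (v : ℂ) * ζ).im| ≤ 4 := by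
  have c1 := (Complex.abs_re_le_norm c).trans hc
  have c2 := (Complex.abs_im_le_norm c).trans hc
  have e1 : (c + (v : ℂ) * ζ).re = c.re + v * ζ.re := by simp
  have e2 : (c + (v : ℂ) * ζ).im = c.im + v * ζ.im := by simp
  rw [e1, e2]
  constructor
  · refine (abs_add_le _ _).trans ?_
    rw [abs_mul, abs_of_pos hv]
    nlinarith [abs_nonneg ζ.re]
  · refine (abs_add_le _ _).trans ?_
    rw [abs_mul, abs_of_pos hv]
    nlinarith [abs_nonneg ζ.im]

theorem M3_bd (p : ℂ × ℝ) (hp : p ∈ M3) : |p.1.re| ≤ 4 ∧ |p.1.im| ≤ 4 ∧ |p.2| ≤ 4 := by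
  obtain ⟨h1, h2, h3⟩ := hp
  refine ⟨(Complex.abs_re_le_norm _).trans (by linarith),
    (Complex.abs_im_le_norm _).trans (by linarith), ?_⟩
  rw [abs_le]; constructor <;> linarith

theorem t_TOP : S_TOP := by
  intro m
  refine ⟨(open_Pas m).inter (open_Om3.preimage continuous_pr), Om_conn m, ?_, fun hG => ?_⟩
  · refine bdd_of m _ Om3 (fun x hx => hx) ?_
    rintro p (hp | hp)
    · exact M3_bd p hp
    · obtain ⟨j, p', hp', rfl⟩ := mem_iUnion.mp hp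
      obtain ⟨h1, h2, h3, h4, -⟩ := hp'
      obtain ⟨k1, k2⟩ := aux_bd (Q j) (V j) (norm_Q_le j) (V_pos j) (V_le j) p'.1 h1 h2
      refine ⟨k1, k2, ?_⟩
      change |p'.2| ≤ 4
      rw [abs_le]; constructor <;> linarith
  · refine bdd_of m _ Om3' (fun x hx => hx) ?_
    rintro p (hp | hp)
    · exact M3_bd p hp
    · obtain ⟨j, p', hp', rfl⟩ := mem_iUnion.mp hp
      obtain ⟨h1, h2, h3, h4, -⟩ := hp'
      have hv := V_pos (j + 1)
      have hv' := V_le (j + 1)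
      have hq := norm_q_le (j + 1)
      obtain ⟨g1, -, g3, -, -⟩ := hG (V (j + 1)) hv hv' (q (j + 1)) p' h1.le h2.le h4.le
      by_cases hy : p'.2 ≤ 0
      · rw [g1 hy]
        obtain ⟨k1, k2⟩ := aux_bd (q (j + 1)) (V (j + 1)) hq hv hv' p'.1 h1 h2
        refine ⟨k1, k2, ?_⟩
        change |p'.2| ≤ 4
        rw [abs_le]; constructor <;> linarith
      · push Not at hy
        obtain ⟨a1, a2, a3⟩ := g3 hy.le
        have b1 : ‖(Gam (V (j + 1)) (q (j + 1)) p').1‖ ≤ 4 := by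
          have : (Gam (V (j + 1)) (q (j + 1)) p').1 =
              ((Gam (V (j + 1)) (q (j + 1)) p').1 - q (j + 1)) + q (j + 1) := by ring
          rw [this]
          refine (norm_add_le _ _).trans ?_
          linarith
        refine ⟨(Complex.abs_re_le_norm _).trans b1, (Complex.abs_im_le_norm _).trans b1, ?_⟩
        rw [abs_of_nonneg a2]
        linarith

end Run7.h13.SC
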